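import Pool.Agent.Helper14.WK.StA

/-! # Project WK, module KA5: the central value as a period -/

set_option autoImplicit false

namespace Pool.Agent.Helper86.WK

open Pool.Agent.Helper14.WK
open Pool.Agent.Helper14.CV (G0)
open Filter Topology MeasureTheory Set UpperHalfPlane
open scoped MatrixGroups Real

private theorem decay {N : ℕ} {k : ℤ} (f : CuspForm (G0 N) k) (A : ℕ) (C : ℝ)
    (hC : ∀ z : ℂ, 1 ≤ z.im → ‖EK f A z‖ ≤ C * (1 + ‖z‖) ^ A * Real.exp (-2 * Real.pi * z.im)) :
    Tendsto (fun y : ℝ => EK f A ((y : ℂ) * Complex.I)) atTop (𝓝 0) := by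
  have h1 : Tendsto (fun y : ℝ => (1 + y) ^ A * Real.exp (-(1 + y))) atTop (𝓝 0) :=
    (Real.tendsto_pow_mul_exp_neg_atTop_nhds_zero A).comp
      (tendsto_atTop_add_const_left atTop (1 : ℝ) tendsto_id)
  have h2 : Tendsto (fun y : ℝ => |C| * Real.exp 1 * ((1 + y) ^ A * Real.exp (-(1 + y)))) atTop
      (𝓝 0) := by
    have := h1.const_mul (|C| * Real.exp 1)
    rwa [mul_zero] at this
  refine squeeze_zero_norm' ?_ h2
  filter_upwards [eventually_ge_atTop (1 : ℝ)] with y hy
  have hy0 : 0 ≤ y := by linarith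
  have him : ((y : ℂ) * Complex.I).im = y := by simp
  have hn : ‖(y : ℂ) * Complex.I‖ = y := by
    rw [norm_mul, Complex.norm_I, mul_one, Complex.norm_real, Real.norm_of_nonneg hy0]
  have h3 := hC ((y : ℂ) * Complex.I) (by rw [him]; exact hy)
  rw [him, hn] at h3
  have h4 : Real.exp (-2 * Real.pi * y) ≤ Real.exp 1 * Real.exp (-(1 + y)) := by
    rw [← Real.exp_add]
    apply Real.exp_le_exp.2
    have hpi := Real.pi_gt_three
    nlinarith
  have h5 : 0 ≤ (1 + y) ^ A := by positivity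
  calc ‖EK f A ((y : ℂ) * Complex.I)‖ ≤ C * (1 + y) ^ A * Real.exp (-2 * Real.pi * y) := h3
    _ ≤ |C| * (1 + y) ^ A * Real.exp (-2 * Real.pi * y) := by
      gcongr
      exact le_abs_self C
    _ ≤ |C| * (1 + y) ^ A * (Real.exp 1 * Real.exp (-(1 + y))) := by gcongr
    _ = |C| * Real.exp 1 * ((1 + y) ^ A * Real.exp (-(1 + y))) := by ring

theorem hKA5 (_h1 : SKA1) (hb : SKA1b) (he : SKE) : SKA5 := by
  intro N hN A hk f J hJ hL
  -- the Mellin transform at `A + 1` vanishes
  have hL1 : ModularForm.L hk f ((A : ℂ) + 1) = 0 := by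
    have h := hL
    unfold LanK at h
    have e : (1 / 2 + (((2 * A + 2 : ℤ) : ℂ) - 1) / 2 : ℂ) = (A : ℂ) + 1 := by
      push_cast
      ring
    rwa [e] at h
  have hre : 0 < ((A : ℂ) + 1).re := by
    simp only [Complex.add_re, Complex.natCast_re, Complex.one_re]
    positivity
  have hLam : ModularForm.Λ hk f ((A : ℂ) + 1) = 0 := by
    unfold ModularForm.L at hL1
    rcases mul_eq_zero.1 hL1 with h | h
    · exact h
    · exfalso
      have hG : Complex.Gammaℂ ((A : ℂ) + 1) ≠ 0 := by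
        rw [Complex.Gammaℂ_def]
        refine mul_ne_zero (mul_ne_zero two_ne_zero ?_) (Complex.Gamma_ne_zero_of_re_pos hre)
        rw [Ne, Complex.cpow_eq_zero_iff]
        intro h0
        have hpi : (2 * (π : ℂ)) ≠ 0 := by
          simp
        exact hpi h0.1
      exact (div_ne_zero two_ne_zero hG) h
  have hM := (CuspForm.isStrongFEPair hk f).hasMellin ((A : ℂ) + 1)
  have hM2 : mellin (ModularForm.weakFEPair hk f).f ((A : ℂ) + 1) = 0 := by
    rw [hM.2]
    exact hLam
  have hM1 : MellinConvergent (ModularForm.weakFEPair hk f).f ((A : ℂ) + 1) := hM.1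
  have hpow : ∀ t : ℝ, 0 < t → ((t : ℂ) ^ (((A : ℂ) + 1) - 1)) •
      (ModularForm.weakFEPair hk f).f t = (t : ℂ) ^ A * fzK f ((t : ℂ) * Complex.I) := by
    intro t ht
    rw [add_sub_cancel_right, Complex.cpow_natCast, smul_eq_mul, mul_comm (t : ℂ) Complex.I]
    rfl
  have hint : IntegrableOn (fun t : ℝ => (t : ℂ) ^ A * fzK f ((t : ℂ) * Complex.I)) (Ioi 0) :=
    (show IntegrableOn (fun t : ℝ => ((t : ℂ) ^ (((A : ℂ) + 1) - 1)) •
      (ModularForm.weakFEPair hk f).f t) (Ioi (0 : ℝ)) volume from hM1).congr_fun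
      (fun t ht => hpow t ht) measurableSet_Ioi
  have hzero : ∫ t in Ioi (0 : ℝ), (t : ℂ) ^ A * fzK f ((t : ℂ) * Complex.I) = 0 := by
    rw [← hM2]
    unfold mellin
    exact setIntegral_congr_fun measurableSet_Ioi (fun t ht => (hpow t ht).symm)
  -- the primitive
  let F : ℝ → ℂ := fun u => if u ≤ 0 then J 0 1 A else EK f A ((u : ℂ) * Complex.I)
  have hF0 : F 0 = J 0 1 A := if_pos le_rfl
  have hFpos : ∀ u : ℝ, 0 < u → F u = EK f A ((u : ℂ) * Complex.I) := fun u hu =>
    if_neg (not_le.2 hu)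
  have hder : ∀ x ∈ Ioi (0 : ℝ), HasDerivAt F
      (Complex.I ^ (A + 1) * ((x : ℂ) ^ A * fzK f ((x : ℂ) * Complex.I))) x := by
    intro x hx
    have hx0 : 0 < ((x : ℂ) * Complex.I).im := by simpa using hx
    have h2 := (he N hN _ f _ hx0).1 A
    have h3 : HasDerivAt (fun u : ℝ => (u : ℂ) * Complex.I) Complex.I x := by
      have := (Complex.ofRealCLM.hasDerivAt (x := x)).mul_const Complex.I
      simpa using this
    have h4 := h2.comp x h3
    have h5 : HasDerivAt (fun u : ℝ => EK f A ((u : ℂ) * Complex.I))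
        (Complex.I ^ (A + 1) * ((x : ℂ) ^ A * fzK f ((x : ℂ) * Complex.I))) x := by
      have e1 : Complex.I ^ (A + 1) * ((x : ℂ) ^ A * fzK f ((x : ℂ) * Complex.I)) =
          fzK f ((x : ℂ) * Complex.I) * ((x : ℂ) * Complex.I) ^ A * Complex.I := by
        rw [mul_pow, pow_succ]
        ring
      rw [e1]
      exact h4
    refine h5.congr_of_eventuallyEq ?_
    filter_upwards [Ioi_mem_nhds hx] with u hu
    exact hFpos u hu
  have htop : Tendsto F atTop (𝓝 0) := by
    obtain ⟨C, hC⟩ := hb N hN _ f A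
    refine (decay f A C hC).congr' ?_
    filter_upwards [eventually_gt_atTop 0] with y hy
    rw [hFpos y hy]
  have hcont : ContinuousWithinAt F (Ici 0) 0 := by
    have h2 := hJ 0 (-1) 1 0 (by norm_num) A (by omega) 0
    have h3 : Tendsto F (𝓝[>] 0) (𝓝 (J 0 1 A)) := by
      have h4 := h2.comp (tendsto_inv_nhdsGT_zero (𝕜 := ℝ))
      refine h4.congr' ?_
      filter_upwards [self_mem_nhdsWithin] with u hu
      have hu' : (0 : ℝ) < u := hu
      rw [hFpos u hu']
      show EK f A _ = _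
      congr 1
      have hu0 : (u : ℂ) ≠ 0 := by exact_mod_cast hu'.ne'
      have hI : Complex.I ≠ 0 := Complex.I_ne_zero
      push_cast
      field_simp
      simp only [zero_mul, zero_add, add_zero]
      have hI2 : Complex.I ^ 2 = -1 := Complex.I_sq
      linear_combination (-(u : ℂ)) * hI2
    rw [← Ioi_insert, continuousWithinAt_insert_self]
    show Tendsto F (𝓝[>] 0) (𝓝 (F 0))
    rw [hF0]
    exact h3
  have hmain := integral_Ioi_of_hasDerivAt_of_tendsto hcont hder (hint.const_mul _) htop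
  rw [integral_const_mul, hzero, mul_zero, hF0, zero_sub] at hmain
  exact neg_eq_zero.1 hmain.symm

end Pool.Agent.Helper86.WK
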