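import Pool.Agent.Helper28.WK.StA

/-!
# Project WK, module Crm: the Cramer argument
-/

set_option autoImplicit false

namespace Pool.Agent.Helper86.WK

open Pool.Agent.Helper14.CV Pool.Agent.Helper28.WK

section map

variable {R S : Type} [AddCommGroup R] [AddCommGroup S] (φ : R →+ S)

private theorem tl_map (l : ℕ) (m : ℤ) (G : ℤ → ℤ → R) :
    Tl l m (fun p q => φ (G p q)) = fun p q => φ (Tl l m G p q) := by
  funext p q
  simp only [Tl, map_add, map_sum]

private theorem tl_iter_map (l : ℕ) (m : ℤ) (i : ℕ) (G : ℤ → ℤ → R) :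
    (Tl l m)^[i] (fun p q => φ (G p q)) = fun p q => φ (((Tl l m)^[i] G) p q) := by
  induction i generalizing G with
  | zero => rfl
  | succ i ih => rw [Function.iterate_succ_apply, Function.iterate_succ_apply, tl_map, ih]

private theorem ev_map (m : ℤ) (G : ℤ → ℤ → R) (i j : ℕ) :
    ev m (fun p q => φ (G p q)) i j = φ (ev m G i j) := by
  simp only [ev, tl_iter_map, map_sub]

private theorem eqC_map {G H : ℤ → ℤ → R} (h : EqC G H) :
    EqC (fun p q => φ (G p q)) (fun p q => φ (H p q)) := by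
  obtain ⟨c, hc⟩ := h
  refine ⟨φ c, fun p q hpq => ?_⟩
  show φ (G p q) = φ (H p q) + φ c
  rw [hc p q hpq, map_add]

private theorem sym_map {r s : ℕ} {G : ℤ → ℤ → R} (h : Sym r s G) :
    Sym r s (fun p q => φ (G p q)) := by
  refine ⟨fun k p q hk hpq => ?_, fun a b c d hd hb hc => ?_⟩
  · show φ (G (k * p) (k * q)) = φ (G p q)
    rw [h.1 k p q hk hpq]
  · exact eqC_map φ (h.2 a b c d hd hb hc)

end map

private theorem sym_zero {R : Type} [AddCommGroup R] (r s : ℕ) : Sym r s (0 : ℤ → ℤ → R) :=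
  ⟨fun _ _ _ _ _ => rfl, fun _ _ _ _ _ _ _ => EqC.refl _⟩

private theorem sym_sum {R ι : Type} [AddCommGroup R] {r s : ℕ} (t : Finset ι)
    (F : ι → ℤ → ℤ → R) (h : ∀ k, Sym r s (F k)) : Sym r s (∑ k ∈ t, F k) := by
  classical
  induction t using Finset.induction_on with
  | empty => rw [Finset.sum_empty]; exact sym_zero r s
  | insert a t ha ih => rw [Finset.sum_insert ha]; exact (h a).add ih

private theorem ev_zero' {R : Type} [AddCommGroup R] (m : ℤ) (i j : ℕ) :
    ev m (0 : ℤ → ℤ → R) i j = 0 := by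
  have h := ev_add m (0 : ℤ → ℤ → R) 0 i j
  rw [add_zero] at h
  exact left_eq_add.mp h

private theorem ev_sum {R ι : Type} [AddCommGroup R] (m : ℤ) (t : Finset ι)
    (F : ι → ℤ → ℤ → R) (i j : ℕ) : ev m (∑ k ∈ t, F k) i j = ∑ k ∈ t, ev m (F k) i j := by
  classical
  induction t using Finset.induction_on with
  | empty => rw [Finset.sum_empty, Finset.sum_empty]; exact ev_zero' m i j
  | insert a t ha ih => rw [Finset.sum_insert ha, Finset.sum_insert ha, ev_add, ih]

/-- CRM. -/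
theorem hCrm : StCrm := by
  intro hBas hDim hLft m M g hm hg hev
  obtain ⟨Gt, hGt, hGtg⟩ := hLft m M g (by omega) hg
  obtain ⟨G, ij, hG, hodd⟩ := hBas m hm
  set X : Matrix (Fin (DD m)) (Fin (DD m)) ℤ :=
    Matrix.of fun k l => ev 1 (G k) (ij l).1 (ij l).2 with hX
  have hXa : ∀ k l, X k l = ev 1 (G k) (ij l).1 (ij l).2 := fun _ _ => rfl
  -- complexifications
  have hcast : ∀ (H : ℤ → ℤ → ℤ) (i j : ℕ),
      evL (fun p q => ((H p q : ℤ) : ℂ)) i j = ((ev 1 H i j : ℤ) : ℂ) := fun H i j =>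
    ev_map (Int.castAddHom ℂ) 1 H i j
  have hGc : ∀ k, Sym 0 m (fun p q => ((G k p q : ℤ) : ℂ)) := fun k =>
    sym_map (Int.castAddHom ℂ) (hG k)
  have hGtc : Sym 0 m (fun p q => ((Gt p q : ℤ) : ℂ)) := sym_map (Int.castAddHom ℂ) hGt
  set Xc : Matrix (Fin (DD m)) (Fin (DD m)) ℂ := X.map (Int.castRingHom ℂ) with hXc
  have hdetc : Xc.det = ((X.det : ℤ) : ℂ) := by
    rw [hXc]
    exact ((Int.castRingHom ℂ).map_det X).symm
  have hdet0 : X.det ≠ 0 := by
    intro h0
    rw [h0] at hodd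
    exact absurd hodd (by decide)
  have hdetc0 : Xc.det ≠ 0 := by
    rw [hdetc]
    exact_mod_cast hdet0
  have hli : LinearIndependent ℂ (fun k => evL (fun p q => ((G k p q : ℤ) : ℂ))) := by
    rw [Fintype.linearIndependent_iff]
    intro c hc
    have h1 : Matrix.vecMul c Xc = 0 := by
      funext l
      have h2 := congrFun (congrFun hc (ij l).1) (ij l).2
      simp only [Finset.sum_apply, Pi.smul_apply, hcast, smul_eq_mul, Pi.zero_apply] at h2
      simp only [Matrix.vecMul, dotProduct, Pi.zero_apply]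
      exact h2
    have h3 := Matrix.eq_zero_of_vecMul_eq_zero hdetc0 h1
    exact fun i => congrFun h3 i
  have hspan := hDim m (fun k p q => ((G k p q : ℤ) : ℂ)) hm hGc hli
    (fun p q => ((Gt p q : ℤ) : ℂ)) hGtc
  obtain ⟨y, hy⟩ := (Submodule.mem_span_range_iff_exists_fun ℂ).1 hspan
  have hyev : ∀ i j : ℕ, ∑ k, y k * ((ev 1 (G k) i j : ℤ) : ℂ) = ((ev 1 Gt i j : ℤ) : ℂ) := by
    intro i j
    have h2 := congrFun (congrFun hy i) j
    simp only [Finset.sum_apply, Pi.smul_apply, hcast, smul_eq_mul] at h2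
    exact h2
  -- divisibility
  have hdvd : ∀ l, ∃ f : ℤ, ev 1 Gt (ij l).1 (ij l).2 = 2 ^ M * f := by
    intro l
    have h1 : ((ev 1 Gt (ij l).1 (ij l).2 : ℤ) : ZMod (2 ^ M)) = 0 := by
      have h2 := ev_map (Int.castAddHom (ZMod (2 ^ M))) 1 Gt (ij l).1 (ij l).2
      have h3 := ev_congr 1 hGtg (ij l).1 (ij l).2
      rw [hev] at h3
      exact (h2.symm.trans h3 :)
    rw [ZMod.intCast_zmod_eq_zero_iff_dvd] at h1
    obtain ⟨f, hf⟩ := h1
    exact ⟨f, by rw [hf]; push_cast; ring⟩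
  choose f hf using hdvd
  set z : Fin (DD m) → ℤ := Matrix.vecMul f X.adjugate with hz
  have hDy : ∀ k, ((X.det : ℤ) : ℂ) * y k = (2 : ℂ) ^ M * ((z k : ℤ) : ℂ) := by
    have h1 : Matrix.vecMul y Xc = fun l => (2 : ℂ) ^ M * ((f l : ℤ) : ℂ) := by
      funext l
      have h2 := hyev (ij l).1 (ij l).2
      rw [hf l] at h2
      push_cast at h2
      rw [← h2]
      rfl
    have h3 : Matrix.vecMul (Matrix.vecMul y Xc) Xc.adjugate = Xc.det • y := by
      rw [Matrix.vecMul_vecMul, Matrix.mul_adjugate, Matrix.vecMul_smul, Matrix.vecMul_one]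
    have hadj : Xc.adjugate = X.adjugate.map (Int.castRingHom ℂ) := by
      rw [hXc]
      exact ((Int.castRingHom ℂ).map_adjugate X).symm
    intro k
    have h4 := congrFun h3 k
    rw [h1, hadj, hdetc, Pi.smul_apply, smul_eq_mul] at h4
    rw [← h4, hz]
    simp only [Matrix.vecMul, dotProduct, Matrix.map_apply, Int.coe_castRingHom, Int.cast_sum,
      Int.cast_mul, Finset.mul_sum]
    exact Finset.sum_congr rfl fun l _ => by ring
  refine ⟨X.det, X.det • Gt + (-((2 : ℤ) ^ M)) • ∑ k, z k • G k, hodd,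
    (hGt.smul X.det).add ((sym_sum _ _ fun k => (hG k).smul (z k)).smul _), ?_, ?_⟩
  · intro i j
    rw [ev_add, ev_smul, ev_smul, ev_sum]
    simp only [ev_smul, smul_eq_mul]
    have h1 : ((X.det * ev 1 Gt i j + -(2 : ℤ) ^ M * ∑ k, z k * ev 1 (G k) i j : ℤ) : ℂ) = 0 := by
      rw [Int.cast_add, Int.cast_mul, Int.cast_mul, Int.cast_neg, Int.cast_pow, Int.cast_ofNat,
        Int.cast_sum]
      simp only [Int.cast_mul]
      rw [← hyev i j, Finset.mul_sum, Finset.mul_sum, ← Finset.sum_add_distrib]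
      refine Finset.sum_eq_zero fun k _ => ?_
      linear_combination ((ev 1 (G k) i j : ℤ) : ℂ) * hDy k
    exact_mod_cast h1
  · obtain ⟨c, hc⟩ := hGtg
    refine ⟨X.det • c, fun p q hpq => ?_⟩
    have h2 : ((2 : ZMod (2 ^ M)) ^ M) = 0 := by
      have := ZMod.natCast_self (2 ^ M)
      push_cast at this
      exact this
    have h3 : ((Gt p q : ℤ) : ZMod (2 ^ M)) = g p q + c := hc p q hpq
    have h4 : (X.det • Gt + (-((2 : ℤ) ^ M)) • ∑ k, z k • G k) p q =
        X.det * Gt p q + (-((2 : ℤ) ^ M)) * (∑ k, z k • G k) p q := rfl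
    have h5 : (X.det • g) p q = (X.det : ZMod (2 ^ M)) * g p q := zsmul_eq_mul (g p q) X.det
    have h6 : X.det • c = (X.det : ZMod (2 ^ M)) * c := zsmul_eq_mul c X.det
    show (((X.det • Gt + (-((2 : ℤ) ^ M)) • ∑ k, z k • G k) p q : ℤ) : ZMod (2 ^ M)) =
      (X.det • g) p q + X.det • c
    rw [h4, h5, h6]
    push_cast
    rw [h2, h3]
    ring

end Pool.Agent.Helper86.WK
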